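import Pool.Agent.N600.L3.Stm

/-!
# Project L3 (helper600), part NOIF: multiplicative noise for algebraic units (helper575)
-/

set_option autoImplicit false

namespace Pool.Agent.N575.L3

open Pool.Agent.N600.L3

universe u

theorem t_noif (h1 : S_NOI.{u}) (h2 : S_LAT.{u}) : S_NOIF.{u} := by
  classical
  intro F _ _ R t S _ _ σ ht ht' hσ
  obtain ⟨s0, hs0⟩ : ∃ s0 : Set F, s0 = {(t : F), ((t⁻¹ : Fˣ) : F)} ∪
      (Set.range (fun s => (σ s : F)) ∪ Set.range (fun s => (((σ s)⁻¹ : Fˣ) : F))) := ⟨_, rfl⟩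
  have hfin : s0.Finite := by
    rw [hs0]
    exact (Set.toFinite _).union ((Set.finite_range _).union (Set.finite_range _))
  have hint : ∀ x ∈ s0, IsIntegral ℤ x := by
    intro x hx
    rw [hs0] at hx
    rcases hx with (hx | hx) | (⟨s, rfl⟩ | ⟨s, rfl⟩)
    · rw [hx]; exact ht
    · rw [hx]; exact ht'
    · exact (hσ s).1
    · exact (hσ s).2
  have hsub : s0 ⊆ (Algebra.adjoin ℤ s0 : Set F) := Algebra.subset_adjoin
  have m1 : (t : F) ∈ Algebra.adjoin ℤ s0 := hsub (by rw [hs0]; left; left; rfl)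
  have m2 : ((t⁻¹ : Fˣ) : F) ∈ Algebra.adjoin ℤ s0 := hsub (by rw [hs0]; left; right; rfl)
  have m3 : ∀ s, (σ s : F) ∈ Algebra.adjoin ℤ s0 := fun s =>
    hsub (by rw [hs0]; right; left; exact ⟨s, rfl⟩)
  have m4 : ∀ s, (((σ s)⁻¹ : Fˣ) : F) ∈ Algebra.adjoin ℤ s0 := fun s =>
    hsub (by rw [hs0]; right; right; exact ⟨s, rfl⟩)
  obtain ⟨tO, htO⟩ : ∃ x : Algebra.adjoin ℤ s0, x = ⟨(t : F), m1⟩ := ⟨_, rfl⟩
  have htO' : (tO : F) = t := by rw [htO]
  obtain ⟨σO, hσO⟩ : ∃ x : S → (Algebra.adjoin ℤ s0)ˣ, x = fun s =>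
      { val := ⟨(σ s : F), m3 s⟩
        inv := ⟨(((σ s)⁻¹ : Fˣ) : F), m4 s⟩
        val_inv := Subtype.ext (by simp)
        inv_val := Subtype.ext (by simp) } := ⟨_, rfl⟩
  have hσO' : ∀ s, ((σO s : Algebra.adjoin ℤ s0) : F) = σ s := by
    intro s
    rw [hσO]
  -- the values
  obtain ⟨w, hw⟩ : ∃ w : (Fin R → Bool × Bool × Bool) → F, w = fun g =>
      ∑ r : Fin R, (t : F) ^ (r : ℕ) * ((ee (g r) : ℤ) : F) := ⟨_, rfl⟩
  obtain ⟨wO, hwO⟩ : ∃ wO : (Fin R → Bool × Bool × Bool) → Algebra.adjoin ℤ s0, wO = fun g =>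
      ∑ r : Fin R, tO ^ (r : ℕ) * ((ee (g r) : ℤ) : Algebra.adjoin ℤ s0) := ⟨_, rfl⟩
  have hww : ∀ g, (wO g : F) = w g := by
    intro g
    have h3 := map_sum (Algebra.adjoin ℤ s0).val
      (fun r : Fin R => tO ^ (r : ℕ) * ((ee (g r) : ℤ) : Algebra.adjoin ℤ s0)) Finset.univ
    rw [hwO, hw]
    refine h3.trans (Finset.sum_congr rfl fun r _ => ?_)
    rw [map_mul, map_pow, map_intCast]
    show (tO : F) ^ (r : ℕ) * _ = _
    rw [htO']
  obtain ⟨Z, hZ⟩ : ∃ Z : Set F, Z = Set.range w \ {0} := ⟨_, rfl⟩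
  obtain ⟨A, iA, iF, π, hπ⟩ := h2 F s0 hfin hint Z
    (by rw [hZ]; exact (Set.finite_range w).subset Set.sdiff_subset)
    (by rw [hZ]; exact fun h => h.2 rfl)
    (by
      rw [hZ]
      rintro _ ⟨⟨g, rfl⟩, -⟩
      rw [← hww g]
      exact (wO g).2)
  have hN := h1 A R (fun r => π tO ^ (r : ℕ)) S (fun s => Units.map (π : _ →* A) (σO s))
  -- the left hand side
  have hL : Nat.card {f : Fin R → S × Bool × Bool // ∑ r : Fin R, (t : F) ^ (r : ℕ) *
        (σ (f r).1 : F) * ((if (f r).2.1 then 1 else 0) - (if (f r).2.2 then 1 else 0)) = 0} ≤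
      Nat.card {f : Fin R → S × Bool × Bool // ∑ r : Fin R, (π tO ^ (r : ℕ)) *
        ((Units.map (π : _ →* A) (σO (f r).1) : Aˣ) : A) *
        ((if (f r).2.1 then 1 else 0) - (if (f r).2.2 then 1 else 0)) = 0} := by
    refine Nat.card_le_card_of_injective (fun f => ⟨f.1, ?_⟩) ?_
    · have hf := f.2
      have h3 : (∑ r : Fin R, tO ^ (r : ℕ) * ((σO (f.1 r).1 : (Algebra.adjoin ℤ s0)ˣ) :
          Algebra.adjoin ℤ s0) * ((if (f.1 r).2.1 then 1 else 0) -
            (if (f.1 r).2.2 then 1 else 0)) : Algebra.adjoin ℤ s0) = 0 := by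
        apply Subtype.ext
        have h4 := map_sum (Algebra.adjoin ℤ s0).val
          (fun r : Fin R => tO ^ (r : ℕ) * ((σO (f.1 r).1 : (Algebra.adjoin ℤ s0)ˣ) :
            Algebra.adjoin ℤ s0) * ((if (f.1 r).2.1 then 1 else 0) -
            (if (f.1 r).2.2 then 1 else 0) : Algebra.adjoin ℤ s0)) Finset.univ
        refine h4.trans ?_
        refine Eq.trans (Finset.sum_congr rfl fun r _ => ?_) hf
        rw [map_mul, map_mul, map_pow, map_sub]
        show (tO : F) ^ (r : ℕ) * ((σO (f.1 r).1 : Algebra.adjoin ℤ s0) : F) * _ = _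
        rw [htO', hσO']
        congr 1
        split_ifs <;> simp
      have h5 := congrArg π h3
      rw [map_sum, map_zero] at h5
      refine Eq.trans (Finset.sum_congr rfl fun r _ => ?_) h5
      rw [map_mul, map_mul, map_pow, map_sub]
      congr 1
      split_ifs <;> simp
    · intro f g hfg
      have := congrArg Subtype.val hfg
      exact Subtype.ext this
  have hRr : Nat.card {g : Fin R → Bool × Bool × Bool //
        ∑ r : Fin R, (π tO ^ (r : ℕ)) * ((ee (g r) : ℤ) : A) = 0} ≤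
      Nat.card {g : Fin R → Bool × Bool × Bool //
        ∑ r : Fin R, (t : F) ^ (r : ℕ) * ((ee (g r) : ℤ) : F) = 0} := by
    refine Nat.card_le_card_of_injective (fun g => ⟨g.1, ?_⟩) ?_
    · have hg := g.2
      have h3 : π (wO g.1) = 0 := by
        rw [hwO]
        simp only
        rw [map_sum]
        refine Eq.trans (Finset.sum_congr rfl fun r _ => ?_) hg
        rw [map_mul, map_pow, map_intCast]
      have h4 : w g.1 = 0 := by
        by_contra hne
        have h5 : w g.1 ∈ Z := by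
          rw [hZ]
          exact ⟨⟨_, rfl⟩, hne⟩
        have h6 : w g.1 ∈ Algebra.adjoin ℤ s0 := by
          rw [← hww]
          exact (wO g.1).2
        apply hπ (w g.1) h6 h5
        have h7 : (⟨w g.1, h6⟩ : Algebra.adjoin ℤ s0) = wO g.1 := Subtype.ext (hww g.1).symm
        rw [h7, h3]
      rw [hw] at h4
      exact h4
    · intro f g hfg
      have := congrArg Subtype.val hfg
      exact Subtype.ext this
  exact (Nat.mul_le_mul_left _ hL).trans (hN.trans (Nat.mul_le_mul_left _ hRr))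

end Pool.Agent.N575.L3
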